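import Mathlib
import Pool.Agent.H.MP_708c97_co.A

namespace Pool.Agent.Results.MP_708c97_co.Neg

open SimpleGraph

theorem result : ∃ (k n : ℕ) (G : SimpleGraph (Fin n)), 3 ≤ k ∧
    (∀ m, 4 ≤ m → ∀ c : (cycleGraph m).Copy G,
      ∃ i j, G.Adj (c i) (c j) ∧ ¬ (cycleGraph m).Adj i j) ∧
    G.cliqueNum = 3 ∧
    ∀ S : Finset (Fin n), (∀ p : (pathGraph k).Copy G, ∃ i, p i ∈ S) →
      ((G.cliqueNum : ℚ) - 1) / ((G.cliqueNum : ℚ) + k - 2) * n < S.card := by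
  refine ⟨7, 19, Pool.Agent.H.MP_708c97_co.G, by omega, Pool.Agent.H.MP_708c97_co.chordal,
    Pool.Agent.H.MP_708c97_co.clq, fun S hS => ?_⟩
  have h : (5 : ℚ) ≤ S.card := by exact_mod_cast Pool.Agent.H.MP_708c97_co.cover S hS
  rw [Pool.Agent.H.MP_708c97_co.clq]
  push_cast
  linarith

end Pool.Agent.Results.MP_708c97_co.Neg
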